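import Pool.Agent.Helper48_LPY.Stmts
import Pool.Agent.Helper48_LPY.Basic

set_option autoImplicit false

namespace Pool.Agent.LPY.H93

open Pool.Agent.LAX

open scoped Classical in
/-- the elements which are not hit -/
noncomputable def unh {α β : Type} [Fintype β] (rel : Set (α × β)) (T : Finset α) : Finset β :=
  Finset.univ.filter fun y => ∀ x ∈ T, (x, y) ∉ rel

open scoped Classical in
theorem exists_good {α β : Type} [Fintype α] [Fintype β] (rel : Set (α × β)) (m : ℝ)
    (hm : ∀ y, m ≤ (inn rel y).ncard) (hα : Nonempty α) (U : Finset β) :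
    ∃ x : α, m * U.card ≤ (Fintype.card α : ℝ) * (U.filter fun y => (x, y) ∈ rel).card := by
  by_contra hcon
  push Not at hcon
  have h1 : ∑ x : α, (Fintype.card α : ℝ) * ((U.filter fun y => (x, y) ∈ rel).card : ℝ) <
      ∑ _x : α, m * U.card :=
    Finset.sum_lt_sum_of_nonempty Finset.univ_nonempty fun x _ => hcon x
  have h2 : ∑ x : α, ((U.filter fun y => (x, y) ∈ rel).card : ℝ) =
      ∑ y ∈ U, ((Finset.univ.filter fun x : α => (x, y) ∈ rel).card : ℝ) := by
    have := Finset.sum_card_bipartiteAbove_eq_sum_card_bipartiteBelow (s := (Finset.univ : Finset α))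
      (t := U) (fun x y => (x, y) ∈ rel)
    have h3 : ∀ x : α, (U.filter fun y => (x, y) ∈ rel) =
      Finset.bipartiteAbove (fun x y => (x, y) ∈ rel) U x := fun x => rfl
    have h4 : ∀ y : β, (Finset.univ.filter fun x : α => (x, y) ∈ rel) =
      Finset.bipartiteBelow (fun x y => (x, y) ∈ rel) Finset.univ y := fun y => rfl
    simp only [h3, h4]
    exact_mod_cast this
  have h5 : ∑ y ∈ U, m ≤ ∑ y ∈ U, ((Finset.univ.filter fun x : α => (x, y) ∈ rel).card : ℝ) := by
    refine Finset.sum_le_sum fun y _ => ?_
    have := hm y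
    rw [Set.ncard_eq_toFinset_card' (inn rel y)] at this
    refine this.trans (le_of_eq ?_)
    congr 2
    ext x
    simp only [Set.mem_toFinset, Finset.mem_filter, Finset.mem_univ, true_and]
    exact Iff.rfl
  rw [← Finset.mul_sum, h2] at h1
  simp only [Finset.sum_const, nsmul_eq_mul, Finset.card_univ] at h1 h5
  have hn : (0 : ℝ) < Fintype.card α := by exact_mod_cast Fintype.card_pos
  have h6 := lt_of_mul_lt_mul_left h1 hn.le
  linarith

open scoped Classical in
theorem greedy {α β : Type} [Fintype α] [Fintype β] (rel : Set (α × β)) (m : ℝ)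
    (hm : ∀ y, m ≤ (inn rel y).ncard) (hα : Nonempty α) (hmn : m ≤ Fintype.card α) (t : ℕ) :
    ∃ T : Finset α, T.card ≤ t ∧
      ((unh rel T).card : ℝ) ≤ Fintype.card β * (1 - m / Fintype.card α) ^ t := by
  have hn : (0 : ℝ) < Fintype.card α := by exact_mod_cast Fintype.card_pos
  induction t with
  | zero =>
    refine ⟨∅, le_rfl, ?_⟩
    rw [pow_zero, mul_one]
    exact_mod_cast Finset.card_le_univ _
  | succ t ih =>
    obtain ⟨T, hT1, hT2⟩ := ih
    obtain ⟨x, hx⟩ := exists_good rel m hm hα (unh rel T)
    refine ⟨insert x T, (Finset.card_insert_le _ _).trans (by omega), ?_⟩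
    have h1 : (unh rel (insert x T)) = (unh rel T) \ ((unh rel T).filter fun y => (x, y) ∈ rel) := by
      ext y
      simp only [unh, Finset.mem_filter, Finset.mem_univ, true_and, Finset.mem_insert,
        Finset.mem_sdiff, not_and]
      constructor
      · intro h
        exact ⟨fun a ha => h a (Or.inr ha), fun _ => h x (Or.inl rfl)⟩
      · rintro ⟨h, h'⟩ a (rfl | ha)
        · exact h' h
        · exact h a ha
    have h2 : ((unh rel (insert x T)).card : ℝ) =
        (unh rel T).card - ((unh rel T).filter fun y => (x, y) ∈ rel).card := by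
      rw [h1, Finset.card_sdiff_of_subset (Finset.filter_subset _ _),
        Nat.cast_sub (Finset.card_filter_le _ _)]
    have h3 : m / Fintype.card α * ((unh rel T).card : ℝ) ≤
        ((unh rel T).filter fun y => (x, y) ∈ rel).card := by
      rw [div_mul_eq_mul_div, div_le_iff₀ hn]
      linarith
    have h4 : 0 ≤ 1 - m / (Fintype.card α : ℝ) := by
      have : m / (Fintype.card α : ℝ) ≤ 1 := (div_le_one hn).mpr hmn
      linarith
    calc ((unh rel (insert x T)).card : ℝ) ≤ (1 - m / Fintype.card α) * (unh rel T).card := by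
          rw [h2]
          linarith
      _ ≤ (1 - m / Fintype.card α) * (Fintype.card β * (1 - m / Fintype.card α) ^ t) :=
          mul_le_mul_of_nonneg_left hT2 h4
      _ = _ := by ring

theorem hit : HitStmt := by
  classical
  intro α β _ _ rel m N hm0 hN hm hb
  have := Fintype.ofFinite α
  have := Fintype.ofFinite β
  rcases isEmpty_or_nonempty β with hβ | ⟨⟨y0⟩⟩
  · refine ⟨∅, fun y => (hβ.false y).elim, ?_⟩
    rw [Set.ncard_empty, Nat.cast_zero]
    have : 0 ≤ Real.log N := Real.log_nonneg hN
    positivity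
  · have hmn : m ≤ Fintype.card α := by
      refine (hm y0).trans ?_
      rw [← Nat.card_eq_fintype_card]
      exact_mod_cast Set.ncard_le_card (inn rel y0)
    have hn : (0 : ℝ) < Fintype.card α := lt_of_lt_of_le hm0 hmn
    have hα : Nonempty α := by
      rw [← Fintype.card_pos_iff]
      exact_mod_cast hn
    rw [Nat.card_eq_fintype_card, Nat.card_eq_fintype_card] at hb
    rw [Nat.card_eq_fintype_card]
    set n : ℝ := (Fintype.card α : ℝ) with hndef
    have hlog : 0 ≤ Real.log N := Real.log_nonneg hN
    obtain ⟨T, hT1, hT2⟩ := greedy rel m hm hα hmn ⌈n / m * Real.log N⌉₊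
    have h4 : 0 ≤ 1 - m / n := by
      have : m / n ≤ 1 := (div_le_one hn).mpr hmn
      linarith
    have h5 : 1 - m / n ≤ Real.exp (-(m / n)) := by
      have := Real.add_one_le_exp (-(m / n))
      linarith
    have h6 : (1 - m / n) ^ ⌈n / m * Real.log N⌉₊ ≤ N⁻¹ := by
      calc (1 - m / n) ^ ⌈n / m * Real.log N⌉₊ ≤ Real.exp (-(m / n)) ^ ⌈n / m * Real.log N⌉₊ :=
            pow_le_pow_left₀ h4 h5 _
        _ = Real.exp (-(m / n * ⌈n / m * Real.log N⌉₊)) := by
            rw [← Real.exp_nat_mul]
            congr 1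
            ring
        _ ≤ Real.exp (-Real.log N) := by
            apply Real.exp_le_exp.mpr
            apply neg_le_neg
            have h7 : n / m * Real.log N ≤ ⌈n / m * Real.log N⌉₊ := Nat.le_ceil _
            have h8 := mul_le_mul_of_nonneg_left h7 (show 0 ≤ m / n by positivity)
            refine le_trans (le_of_eq ?_) h8
            field_simp
        _ = N⁻¹ := by rw [Real.exp_neg, Real.exp_log (by linarith)]
    have h9 : ((unh rel T).card : ℝ) ≤ n / m := by
      refine hT2.trans ((mul_le_mul_of_nonneg_left h6 (Nat.cast_nonneg _)).trans ?_)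
      rw [le_div_iff₀ hm0, ← div_eq_mul_inv, div_mul_eq_mul_div, div_le_iff₀ (by linarith)]
      linarith
    have hx : ∀ y : β, ∃ x : α, (x, y) ∈ rel := by
      intro y
      have h10 : 0 < (inn rel y).ncard := by
        have := hm y
        have h11 : (0 : ℝ) < (inn rel y).ncard := lt_of_lt_of_le hm0 this
        exact_mod_cast h11
      obtain ⟨x, hx⟩ := Set.nonempty_of_ncard_ne_zero h10.ne'
      exact ⟨x, hx⟩
    choose g hg using hx
    refine ⟨((T ∪ (unh rel T).image g : Finset α) : Set α), fun y => ?_, ?_⟩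
    · by_cases hy : y ∈ unh rel T
      · refine ⟨g y, ?_, hg y⟩
        rw [Finset.mem_coe, Finset.mem_union]
        exact Or.inr (Finset.mem_image_of_mem _ hy)
      · simp only [unh, Finset.mem_filter, Finset.mem_univ, true_and, not_forall, not_not] at hy
        obtain ⟨x, hx, hxy⟩ := hy
        refine ⟨x, ?_, hxy⟩
        rw [Finset.mem_coe, Finset.mem_union]
        exact Or.inl hx
    · rw [Set.ncard_coe_finset]
      have h12 : ((T ∪ (unh rel T).image g).card : ℝ) ≤ T.card + (unh rel T).card := by
        exact_mod_cast (Finset.card_union_le _ _).trans (Nat.add_le_add_left Finset.card_image_le _)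
      have h13 : (⌈n / m * Real.log N⌉₊ : ℝ) < n / m * Real.log N + 1 :=
        Nat.ceil_lt_add_one (by positivity)
      have h14 : (T.card : ℝ) ≤ ⌈n / m * Real.log N⌉₊ := by exact_mod_cast hT1
      have h15 : 1 ≤ n / m := by
        rw [le_div_iff₀ hm0]
        linarith
      calc ((T ∪ (unh rel T).image g).card : ℝ) ≤ n / m * Real.log N + 1 + n / m := by linarith
        _ ≤ n / m * (2 + Real.log N) := by linarith [mul_add (n / m) 2 (Real.log N)]

end Pool.Agent.LPY.H93
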