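import Pool.Agent.Helper48_LPY.Stmts
import Pool.Agent.Helper48_LPY.Basic

set_option autoImplicit false

namespace Pool.Agent.LPY.H93

open Pool.Agent.LAX

open scoped Classical

/-- the sumset with `{δ, 2 δ}` -/
noncomputable def sh (δ : Lab) (J : Finset Lab) : Finset Lab :=
  J.image (fun i => i + δ) ∪ J.image (fun i => i + 2 * δ)

theorem card_sh (δ : Lab) (hδ : δ = 1 ∨ δ = -1) (J : Finset Lab) :
    J.card + (if J.Nonempty ∧ J ≠ Finset.univ then 1 else 0) ≤ (sh δ J).card := by
  have hinj : (J.image (fun i => i + δ)).card = J.card :=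
    Finset.card_image_of_injective _ (add_left_injective δ)
  have hsub : J.image (fun i => i + δ) ⊆ sh δ J := Finset.subset_union_left
  split_ifs with hJ
  · obtain ⟨⟨i0, hi0⟩, hJu⟩ := hJ
    have hne : J.image (fun i => i + δ) ≠ sh δ J := by
      intro heq
      apply hJu
      -- `J + δ ⊆ J`
      have h1 : ∀ i ∈ J, i + δ ∈ J := by
        intro i hi
        have h2 : i + 2 * δ ∈ sh δ J :=
          Finset.mem_union_right _ (Finset.mem_image_of_mem _ hi)
        rw [← heq] at h2
        obtain ⟨j, hj, hji⟩ := Finset.mem_image.mp h2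
        have h3 : j = i + δ := by
          have : j + δ = i + δ + δ := by rw [hji]; ring
          exact add_right_cancel this
        rw [← h3]
        exact hj
      have h4 : ∀ n : ℕ, i0 + n * δ ∈ J := by
        intro n
        induction n with
        | zero => simpa using hi0
        | succ n ih =>
          have := h1 _ ih
          have e : i0 + ((n + 1 : ℕ) : Lab) * δ = i0 + n * δ + δ := by push_cast; ring
          rw [e]
          exact this
      ext j
      simp only [Finset.mem_univ, iff_true]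
      have h5 := h4 (((j - i0) * δ).val)
      rw [ZMod.natCast_zmod_val] at h5
      have h6 : δ * δ = 1 := by
        rcases hδ with rfl | rfl
        · ring
        · ring
      have h7 : i0 + (j - i0) * δ * δ = j := by
        rw [mul_assoc, h6]
        ring
      rw [h7] at h5
      exact h5
    have := Finset.card_lt_card (Finset.ssubset_iff_subset_ne.mpr ⟨hsub, hne⟩)
    omega
  · rw [add_zero, ← hinj]
    exact Finset.card_le_card hsub

variable {V : Type} [Fintype V]

/-- columns -/
noncomputable def col (A : Set (V × Lab)) (x : V) : Finset Lab :=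
  Finset.univ.filter fun i => (x, i) ∈ A

theorem sum_col (A : Set (V × Lab)) : ∑ x, (col A x).card = A.ncard := by
  rw [Set.ncard_eq_toFinset_card' A, Finset.card_eq_sum_card_fiberwise (f := Prod.fst)
    (t := Finset.univ) (fun _ _ => Finset.mem_univ _)]
  refine Finset.sum_congr rfl fun x _ => ?_
  refine Finset.card_bij (fun i _ => (x, i)) ?_ ?_ ?_
  · intro i hi
    simp only [col, Finset.mem_filter, Finset.mem_univ, true_and] at hi
    simp only [Finset.mem_filter, Set.mem_toFinset, and_true]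
    exact hi
  · intro i _ j _ h
    exact (Prod.mk.inj h).2
  · rintro ⟨x', i⟩ h
    simp only [Finset.mem_filter, Set.mem_toFinset] at h
    obtain ⟨h1, h2⟩ := h
    subst h2
    exact ⟨i, by simp only [col, Finset.mem_filter, Finset.mem_univ, true_and]; exact h1, rfl⟩

theorem part_eq (A : Set (V × Lab)) :
    part A = ∑ x, (if (col A x).Nonempty ∧ col A x ≠ Finset.univ then 1 else 0) := by
  unfold part
  rw [← Finset.card_filter, Set.ncard_eq_toFinset_card' _]
  congr 1
  ext x
  simp only [Set.mem_toFinset, Finset.mem_filter, Finset.mem_univ, true_and]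
  show ((∃ i, (x, i) ∈ A) ∧ ∃ i, (x, i) ∉ A) ↔ _
  constructor
  · rintro ⟨⟨i, hi⟩, j, hj⟩
    refine ⟨⟨i, by simpa [col] using hi⟩, fun h => hj ?_⟩
    have : j ∈ col A x := by rw [h]; exact Finset.mem_univ _
    simpa [col] using this
  · rintro ⟨⟨i, hi⟩, h⟩
    refine ⟨⟨i, by simpa [col] using hi⟩, ?_⟩
    by_contra hcon
    push Not at hcon
    apply h
    ext j
    simpa [col] using hcon j

/-- the part of the leak of `(x, i)` in the column `y` -/
noncomputable def lk (S : Set (V × Lab)) (δ : Lab) (i : Lab) (y : V) : Finset Lab :=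
  ({i + δ, i + 2 * δ} : Finset Lab).filter fun j => (y, j) ∉ S

omit [Fintype V] in
theorem arc_sub1 (δ : Lab) (A S : Set (V × Lab)) (x y : V) (j : Lab) (hj : j ∈ sh δ (col A x))
    (hjS : (y, j) ∉ S) : ∃ i ∈ col A x, j ∈ lk S δ i y := by
  have h0 : j ∈ (col A x).image (fun i => i + δ) ∨ j ∈ (col A x).image (fun i => i + 2 * δ) :=
    Finset.mem_union.mp hj
  refine Or.elim h0 (fun h => ?_) (fun h => ?_)
  · obtain ⟨i, hi, hij⟩ := Finset.mem_image.mp h
    refine ⟨i, hi, ?_⟩
    simp only [lk, Finset.mem_filter, Finset.mem_insert]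
    exact ⟨Or.inl hij.symm, hjS⟩
  · obtain ⟨i, hi, hij⟩ := Finset.mem_image.mp h
    refine ⟨i, hi, ?_⟩
    simp only [lk, Finset.mem_filter, Finset.mem_insert, Finset.mem_singleton]
    exact ⟨Or.inr hij.symm, hjS⟩

omit [Fintype V] in
theorem arc_sub (δ : Lab) (A S : Set (V × Lab)) (x y : V) (j : Lab) (hj : j ∈ sh δ (col A x)) :
    j ∈ col S y ∨ ∃ i ∈ col A x, j ∈ lk S δ i y :=
  Or.elim (Classical.em ((y, j) ∈ S))
    (fun hjS => Or.inl (Finset.mem_filter.mpr ⟨Finset.mem_univ _, hjS⟩))
    (fun hjS => Or.inr (arc_sub1 δ A S x y j hj hjS))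

theorem card_le_aux {ι κ : Type} (P Q : Finset ι) (I : Finset κ) (R : κ → Finset ι)
    (h : ∀ j ∈ P, j ∈ Q ∨ ∃ i ∈ I, j ∈ R i) : P.card ≤ Q.card + ∑ i ∈ I, (R i).card :=
  (Finset.card_le_card (t := Q ∪ I.biUnion R) fun j hj => Finset.mem_union.mpr
    ((h j hj).imp id fun h' => Finset.mem_biUnion.mpr h')).trans
      ((Finset.card_union_le _ _).trans (Nat.add_le_add_left Finset.card_biUnion_le _))

omit [Fintype V] in
theorem arc_ineq (δ : Lab) (hδ : δ = 1 ∨ δ = -1) (A S : Set (V × Lab)) (x y : V) :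
    (col A x).card + (if (col A x).Nonempty ∧ col A x ≠ Finset.univ then 1 else 0) ≤
      (col S y).card + ∑ i ∈ col A x, (lk S δ i y).card :=
  (card_sh δ hδ (col A x)).trans
    (card_le_aux _ _ _ (fun i => lk S δ i y) (arc_sub δ A S x y))

theorem leak_eq (Q : Set (V × V)) (δ : Lab) (T : Set (V × Lab)) (x : V) (i : Lab) :
    leak Q δ T (x, i) =
      ∑ y ∈ Finset.univ.filter (fun y => (x, y) ∈ Q), (lk (SS Q δ T) δ i y).card := by
  unfold leak
  rw [Set.ncard_eq_toFinset_card' _, Finset.card_eq_sum_card_fiberwise (f := Prod.fst)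
    (t := Finset.univ.filter (fun y => (x, y) ∈ Q)) ?_]
  · refine Finset.sum_congr rfl fun y hy => ?_
    have hy' : (x, y) ∈ Q := by simpa using hy
    refine (Finset.card_bij (fun j _ => (y, j)) ?_ ?_ ?_).symm
    · intro j hj
      simp only [lk, Finset.mem_filter, Finset.mem_insert, Finset.mem_singleton] at hj
      simp only [Finset.mem_filter, Set.mem_toFinset, and_true]
      exact ⟨⟨hy', hj.1⟩, hj.2⟩
    · intro i _ j _ h
      exact (Prod.mk.inj h).2
    · rintro ⟨y', j⟩ h
      simp only [Finset.mem_filter, Set.mem_toFinset] at h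
      obtain ⟨⟨h1, h3⟩, h2⟩ := h
      subst h2
      refine ⟨j, ?_, rfl⟩
      simp only [lk, Finset.mem_filter, Finset.mem_insert, Finset.mem_singleton]
      exact ⟨h1.2, h3⟩
  · intro p hp
    have hp' : p ∈ ow Q δ (x, i) \ SS Q δ T := by simpa using hp
    simpa using hp'.1.1

theorem slk_eq (Q : Set (V × V)) (δ : Lab) (T A : Set (V × Lab)) :
    slk Q δ T A = ((∑ x, ∑ i ∈ col A x, leak Q δ T (x, i) : ℕ) : ℝ) := by
  unfold slk
  rw [Fintype.sum_prod_type]
  push_cast
  refine Finset.sum_congr rfl fun x _ => ?_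
  unfold col
  rw [Finset.sum_filter]
  refine Finset.sum_congr rfl fun i _ => ?_
  by_cases h : (x, i) ∈ A
  · rw [Set.indicator_of_mem h, if_pos h]
  · rw [Set.indicator_of_notMem h, if_neg h]

theorem kin : KinStmt := by
  intro V _ Q δ k0 w hδ hout hin hw T A
  have hO : ∀ x, (out Q x).ncard = (Finset.univ.filter (fun y => (x, y) ∈ Q)).card := by
    intro x
    rw [Set.ncard_eq_toFinset_card' _]
    congr 1
    ext y
    simp only [Set.mem_toFinset, Finset.mem_filter, Finset.mem_univ, true_and]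
    exact Iff.rfl
  have hI : ∀ y, (inn Q y).ncard = (Finset.univ.filter (fun x => (x, y) ∈ Q)).card := by
    intro y
    rw [Set.ncard_eq_toFinset_card' _]
    congr 1
    ext x
    simp only [Set.mem_toFinset, Finset.mem_filter, Finset.mem_univ, true_and]
    exact Iff.rfl
  set S := SS Q δ T with hS
  set f : V → ℕ := fun x => (col A x).card +
    (if (col A x).Nonempty ∧ col A x ≠ Finset.univ then 1 else 0) with hf
  have e1 : ∑ x, f x = A.ncard + part A := by
    rw [hf, Finset.sum_add_distrib, sum_col, part_eq]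
  -- sum over the arcs
  have e2 : ∑ x, ∑ y ∈ Finset.univ.filter (fun y => (x, y) ∈ Q), f x ≤
      ∑ x, ∑ y ∈ Finset.univ.filter (fun y => (x, y) ∈ Q),
        ((col S y).card + ∑ i ∈ col A x, (lk S δ i y).card) :=
    Finset.sum_le_sum fun x _ => Finset.sum_le_sum fun y _ => arc_ineq δ hδ A S x y
  have e3 : (k0 - w) * (A.ncard + part A) ≤
      ∑ x, ∑ y ∈ Finset.univ.filter (fun y => (x, y) ∈ Q), f x := by
    rw [← e1, Finset.mul_sum]
    refine Finset.sum_le_sum fun x _ => ?_
    rw [Finset.sum_const, smul_eq_mul, ← hO]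
    exact Nat.mul_le_mul_right _ (by have := hout x; omega)
  have e4 : ∑ x, ∑ y ∈ Finset.univ.filter (fun y => (x, y) ∈ Q),
        ((col S y).card + ∑ i ∈ col A x, (lk S δ i y).card) =
      (∑ y, (inn Q y).ncard * (col S y).card) + ∑ x, ∑ i ∈ col A x, leak Q δ T (x, i) := by
    simp only [Finset.sum_add_distrib]
    refine congrArg₂ (· + ·) ?_ ?_
    · simp only [Finset.sum_filter]
      rw [Finset.sum_comm]
      refine Finset.sum_congr rfl fun y _ => ?_
      rw [← Finset.sum_filter, Finset.sum_const, smul_eq_mul, hI]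
    · refine Finset.sum_congr rfl fun x _ => ?_
      rw [Finset.sum_comm]
      refine Finset.sum_congr rfl fun i _ => ?_
      rw [leak_eq]
  have e5 : ∑ y, (inn Q y).ncard * (col S y).card ≤ k0 * S.ncard := by
    rw [← sum_col, Finset.mul_sum]
    exact Finset.sum_le_sum fun y _ => Nat.mul_le_mul_right _ (hin y)
  have e6 : (k0 - w) * (A.ncard + part A) ≤
      k0 * S.ncard + ∑ x, ∑ i ∈ col A x, leak Q δ T (x, i) := by
    calc _ ≤ _ := e3
      _ ≤ _ := e2
      _ = _ := e4
      _ ≤ _ := Nat.add_le_add_right e5 _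
  rw [slk_eq]
  have e7 : (((k0 - w) * (A.ncard + part A) : ℕ) : ℝ) ≤
      ((k0 * S.ncard + ∑ x, ∑ i ∈ col A x, leak Q δ T (x, i) : ℕ) : ℝ) := by exact_mod_cast e6
  rw [Nat.cast_mul, Nat.cast_sub hw, Nat.cast_add, Nat.cast_add, Nat.cast_mul] at e7
  exact e7

end Pool.Agent.LPY.H93
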